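import Pool.Agent.TMX.Stmts

set_option autoImplicit false

namespace Pool.Agent.TMX.H21

open Finset Pool.Agent.TMX
open Pool.Agent.Helper51_Max (I IsMax)

theorem key (g : ℕ → ℝ) (S T : Finset ℕ) (hsub : T ⊆ S) (hpos : 0 < T.card) (m m' : ℝ)
    (h1 : m * (S.card : ℝ) = ∑ i ∈ S, g i) (h2 : ∑ i ∈ T, g i ≤ m' * (T.card : ℝ))
    (h3 : m' < m) : ∃ i ∈ S, i ∉ T ∧ m < g i := by
  by_contra hcon
  push Not at hcon
  have e1 : ∑ i ∈ S \ T, g i ≤ m * ((S \ T).card : ℝ) := by
    have h := sum_le_card_nsmul (S \ T) g m (fun i hi => by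
      rw [mem_sdiff] at hi
      exact hcon i hi.1 hi.2)
    rw [nsmul_eq_mul] at h
    linarith
  have e2 := sum_sdiff hsub (f := g)
  have e3 : ((S \ T).card : ℝ) + (T.card : ℝ) = (S.card : ℝ) := by
    exact_mod_cast card_sdiff_add_card_eq_card hsub
  have e4 : (0 : ℝ) < (T.card : ℝ) := by exact_mod_cast hpos
  rw [← e3] at h1
  nlinarith

/-- ROW TAN -/
theorem tan : Tan := by
  intro N g M hM
  constructor
  · intro z z' r h1 h2 h3 h4 h5
    obtain ⟨i, hi, hn, hg⟩ := key g (I N z r) (I N z' (r - (z' - z)))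
      (by
        intro i hi
        simp only [I, mem_Icc] at hi ⊢
        omega)
      (card_pos.2 ⟨z', by simp only [I, mem_Icc]; omega⟩) (M z) (M z') h4 (hM.le z' h2 _) h5
    refine ⟨i, hi, ?_, hg⟩
    simp only [I, mem_Icc] at hi hn
    omega
  · intro z z' r h1 h2 h3 h4 h5
    obtain ⟨i, hi, hn, hg⟩ := key g (I N z r) (I N z' (r - (z - z')))
      (by
        intro i hi
        simp only [I, mem_Icc] at hi ⊢
        omega)
      (card_pos.2 ⟨z', by simp only [I, mem_Icc]; omega⟩) (M z) (M z') h4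
      (hM.le z' (by omega) _) h5
    refine ⟨i, hi, ?_, hg⟩
    simp only [I, mem_Icc] at hi hn
    omega

end Pool.Agent.TMX.H21
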